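import Mathlib
import Pool.Agent.Helper116_EM.Zeta

set_option autoImplicit false

/-!
# `ζ(3)` and the tails of its triple integral: a joint measure of algebraic independence

For a rational number `x ≥ 0` let
`R(x) = 1/12 * ∫ log(t_0 t_1 / t_2²)³ exp (-t_0 - t_1 - t_2) dt`, the integral being over the points of
the positive octant with `max t_j ≥ x`.

(1) `R(0) = ζ(3)`.

(2) Let `x_0, …, x_m ≥ 0` be distinct rational numbers, and let `D` be given. There are `κ` and `c > 0`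
such that for all nonzero polynomials `P` (in two variables) and `Q` (in `m + 1` variables) with integer
coefficients, of total degree at most `D` and with coefficients of absolute value at most `H`
`max (|P(e, R(x_0))|, |Q(e, R(x_1), …, R(x_m))|) ≥ c H^(-κ)`.

In words: at every scale `H` at most one of the numbers `R(x)`, `ζ(3) = R(0)` among them, is close to a
number algebraic over `ℚ(e)`, and if one is, then `e` and the others are quantitatively algebraically
independent at this scale.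

Proof.  The differences `R(0) - R(x)` are polynomials in values of E-functions at rational points.  A
measure of linear independence in the theorem of Siegel and Shidlovskii gives a measure of algebraic
independence for `e` and the numbers `R(x_j) - R(x_0)`, `1 ≤ j ≤ m`.  The number `R(x_0)` is eliminated
by the resultant of `P(e, X)` and `Q(e, X + R(x_1) - R(x_0), …, X + R(x_m) - R(x_0))`.
-/

namespace Pool.Agent.Results.MP_48b3e2_nt.JointMeasureOfTails

open Set MeasureTheory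

/-- `R(x)` -/
noncomputable def R (x : ℚ) : ℝ :=
  1 / 12 * ∫ t in {t : Fin 3 → ℝ | (∀ j, 0 < t j) ∧ ∃ j, (x : ℝ) ≤ t j},
    Real.log (t 0 * t 1 / t 2 ^ 2) ^ 3 * Real.exp (-(t 0 + t 1 + t 2))

/-- `P` is not zero, its total degree is at most `D` and its coefficients are at most `H` in absolute
value -/
def Bounded {n : ℕ} (D H : ℕ) (P : MvPolynomial (Fin n) ℤ) : Prop :=
  P ≠ 0 ∧ P.totalDegree ≤ D ∧ ∀ s, |MvPolynomial.coeff s P| ≤ (H : ℤ)

open Pool.Agent.R352.Q Pool.Agent.R352.E in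
theorem full_integral :
    ∫ t in cube 3 (Ioi 0), Real.log (t 0 * t 1 / t 2 ^ 2) ^ 3 * Real.exp (-(t 0 + t 1 + t 2)) = 12 * zt 3 := by
  have h1 : ((∫ t in cube 3 (Ioi 0), Real.log (t 0 * t 1 / t 2 ^ 2) ^ 3 *
      Real.exp (-(t 0 + t 1 + t 2)) : ℝ) : ℂ) = ((12 * zt 3 : ℝ) : ℂ) := by
    rw [show ((∫ t in cube 3 (Ioi 0), Real.log (t 0 * t 1 / t 2 ^ 2) ^ 3 *
      Real.exp (-(t 0 + t 1 + t 2)) : ℝ) : ℂ) = ∫ t in cube 3 (Ioi 0), ((Real.log (t 0 * t 1 / t 2 ^ 2) ^ 3 *
        Real.exp (-(t 0 + t 1 + t 2)) : ℝ) : ℂ) from integral_ofReal.symm]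
    have h2 : ∫ t in cube 3 (Ioi 0), ((Real.log (t 0 * t 1 / t 2 ^ 2) ^ 3 *
        Real.exp (-(t 0 + t 1 + t 2)) : ℝ) : ℂ) =
        ∫ t in cube 3 (Ioi 0), FI 3 (![1, 1, -2] : Fin 3 → ℂ) t := by
      refine setIntegral_congr_fun (meas_cube 3 measurableSet_Ioi) fun t ht => ?_
      exact (FI_three t fun j => ht j (mem_univ j)).symm
    rw [h2, cube, cube_three subset_rfl deriv_Fs_Ioi, const_Fs_Ioi]
    have h3 : PowerSeries.coeff 2 PC = (-1) ^ 3 * zt 3 := coeff_PC (k := 3) (by norm_num)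
    rw [h3]
    norm_num
  exact_mod_cast h1

theorem R_zero : R 0 = Pool.Agent.R352.E.zt 3 := by
  have h1 : {t : Fin 3 → ℝ | (∀ j, 0 < t j) ∧ ∃ j, (((0 : ℚ)) : ℝ) ≤ t j} =
      Pool.Agent.R352.Q.cube 3 (Ioi 0) := by
    ext t
    simp only [Pool.Agent.R352.Q.cube, mem_setOf_eq, mem_univ_pi, mem_Ioi, Rat.cast_zero]
    exact ⟨fun h => h.1, fun h => ⟨h, 0, (h 0).le⟩⟩
  rw [R, h1, full_integral]
  ring

theorem R_pos {x : ℚ} (hx : 0 < x) : R x = Pool.Agent.R352.Q.Rk 3 x := by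
  have hx' : (0 : ℝ) < x := by exact_mod_cast hx
  have h1 : {t : Fin 3 → ℝ | (∀ j, 0 < t j) ∧ ∃ j, (x : ℝ) ≤ t j} =
      Pool.Agent.R352.Q.cube 3 (Ioi 0) \ Pool.Agent.R352.Q.cube 3 (Ioo 0 (x : ℝ)) := by
    ext t
    simp only [Pool.Agent.R352.Q.cube, mem_setOf_eq, mem_sdiff, mem_univ_pi, mem_Ioi, mem_Ioo]
    constructor
    · rintro ⟨h1, j, h2⟩
      exact ⟨h1, fun h => absurd (h j).2 (not_lt.2 h2)⟩
    · rintro ⟨h1, h2⟩
      push Not at h2
      obtain ⟨j, hj⟩ := h2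
      exact ⟨h1, j, hj (h1 j)⟩
  rw [R, h1, Pool.Agent.R352.Q.three_rest hx']
  ring

open Classical in
/-- the name of `R(x)` -/
noncomputable def nm (x : ℚ) : Option {x : ℚ // 0 < x} := if h : 0 < x then some ⟨x, h⟩ else none

theorem num_nm {x : ℚ} (hx : 0 ≤ x) : Pool.Agent.Helper116_EM.num 3 (nm x) = R x := by
  unfold nm
  split_ifs with h
  · rw [R_pos h]; rfl
  · have h0 : x = 0 := le_antisymm (not_lt.1 h) hx
    rw [h0, R_zero]; rfl

theorem nm_inj {x y : ℚ} (hx : 0 ≤ x) (hy : 0 ≤ y) (h : nm x = nm y) : x = y := by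
  unfold nm at h
  split_ifs at h with h1 h2
  · simpa using h
  · exact le_antisymm ((not_lt.1 h1).trans hy) ((by assumption : ¬ 0 < y) |> not_lt.1 |>.trans hx)

theorem result :
    -- (1)
    R 0 = ∑' n : ℕ, 1 / ((n : ℝ) + 1) ^ 3 ∧
    -- (2)
    ∀ (m D : ℕ) (x : Fin (m + 1) → ℚ), Function.Injective x → (∀ j, 0 ≤ x j) →
      ∃ (κ : ℕ) (c : ℝ), 0 < c ∧
        ∀ (H : ℕ) (P : MvPolynomial (Fin 2) ℤ) (Q : MvPolynomial (Fin (m + 1)) ℤ), Bounded D H P → Bounded D H Q →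
          c / (H : ℝ) ^ κ ≤ max |MvPolynomial.aeval ![Real.exp 1, R (x 0)] P|
            |MvPolynomial.aeval (Fin.cons (Real.exp 1) (fun j => R (x j.succ)) : Fin (m + 1) → ℝ) Q| := by
  refine ⟨R_zero, fun m D x hx hpos => ?_⟩
  obtain ⟨κ, c, hc, h⟩ := Pool.Agent.Helper116_EM.zeta_names (k := 3) (by norm_num) (fun j => nm (x j))
    (fun i j hij => hx (nm_inj (hpos i) (hpos j) hij)) D
  refine ⟨κ, c, hc, fun H P Q hP hQ => ?_⟩
  have hH : 1 ≤ H := by
    by_contra h0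
    have hH0 : H = 0 := by omega
    apply hP.1
    ext s
    have h1 := hP.2.2 s
    rw [hH0, Nat.cast_zero] at h1
    rw [MvPolynomial.coeff_zero]
    exact abs_eq_zero.1 (le_antisymm h1 (abs_nonneg _))
  have hH' : (1 : ℝ) ≤ H := by exact_mod_cast hH
  have h1 := h P Q hP.1 hQ.1 hP.2.1 hQ.2.1 H hH' (fun s => by exact_mod_cast hP.2.2 s)
    (fun s => by exact_mod_cast hQ.2.2 s)
  simp only [num_nm (hpos _)] at h1
  rw [div_le_iff₀ (by positivity), mul_comm]
  exact h1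

end Pool.Agent.Results.MP_48b3e2_nt.JointMeasureOfTails
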