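import Mathlib
import Pool.Agent.H895.SM.CountR

set_option autoImplicit false

/-!
# `ζ(3)` as a triple integral: joint transcendence measures for `ζ(3)` and the tails

For an integer `k ≥ 2` let `ω = exp (2 π i / k)`. For a positive rational number `x` let `R_k(x)` be
the number `(-1)^k / k! * ∫ (∑_j ω^j log t_j)^k exp (-∑_j t_j) dt`, the integral being over the
points of the octant `(0, ∞)^k` which do not lie in the cube `(0, x)^k`.

Real numbers `v_1, …, v_n` have a *joint transcendence measure* if for every `D` there are `κ` and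
`c > 0` such that `max_i |P_i(v_i)| ≥ c H^(-κ)` for all nonzero integer polynomials `P_1, …, P_n` of
degree at most `D` with coefficients of absolute value at most `H`; for `n = 1` this is a
transcendence measure of `v_1`, which is polynomial in the height. They satisfy the *joint digit
bound* if for every `r` there is `A ≥ 1` such that for all bases `b_i`, all lengths `L_i` and all
numbers of errors `K_i`
`min_i L_i log b_i ≤ A^(K_1 + ⋯ + K_n + 1) ∑_i (N_i + 1) log b_i`, `N_i = N(b_i, v_i; r, K_i, L_i)`,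
where `N(b, x; r, K, L)` is the least `k` such that after the change of at most `K` of the first `L`
base `b` digits of `x` the polynomial `S(X) = s_1 X + ⋯ + s_L X^L` of these digits satisfies
`X^(L+1) ∣ P(X, S(X))` for some nonzero `P(X, Y)` of degree at most `r` in `Y` and `k` in `X`.
The family `v_1, …, v_n` is *good* if it and, moreover, every nonempty subfamily of it that contains
all its transcendental members has both properties. So if all but one of the members of a good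
family are algebraic, then the remaining one alone has a transcendence measure and satisfies the
digit bound.

(1) The same integral over the whole octant is `ζ(k)`. The number `R_k(x)` is real, and
`R_3(x) = 1/12 * ∫ log(t_1 t_2 / t_3²)³ exp (-t_1 - t_2 - t_3) dt`, the integral being over the
points of the positive octant with `max t_i ≥ x`.

(2) For all positive rational numbers `x ≠ x'` the pair `ζ(3), R_3(x)` is good and the pair
`R_3(x), R_3(x')` is good.

(3) Let `y_1, …, y_r` be real numbers and `K` a set of integers `k ≥ 2` for which `ζ(k)` is algebraic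
over `ℚ(e, y_1, …, y_r)`. Let `w_1, …, w_n`, `n > r`, be numbers with different names among
`y_1, …, y_r` and `R_k(x)` (`k ∈ K`, `x` positive rational), and let `v_1, …, v_n` be real numbers
such that `w_i` is algebraic over `ℚ(e, v_i)` (for instance `v_i = w_i`). Then `v_1, …, v_n` is good.

(4) For `c ≥ 0` any `c + 2` numbers with different names among `π, ζ(3), ζ(5), …, ζ(2c+1)` and
`R_k(x)` (`k ≥ 2`, `k` even or `k ≤ 2c + 1`, `x` positive rational) form a good family.
-/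

namespace Pool.Agent.Results.MP_48b3e2_nt.JointMeasuresTails

open Finset Polynomial Set MeasureTheory

/-- the zeta value `ζ(s) = ∑ 1 / n^s` -/
noncomputable def zeta (s : ℕ) : ℝ := ∑' n : ℕ, 1 / ((n : ℝ) + 1) ^ s

/-- `ω = exp (2 π i / k)` -/
noncomputable def root (k : ℕ) : ℂ := Complex.exp (2 * Real.pi * Complex.I / k)

/-- `(∑_j ω^j log t_j)^k exp (-∑_j t_j)` -/
noncomputable def integrand (k : ℕ) (t : Fin k → ℝ) : ℂ :=
  (∑ j : Fin k, root k ^ (j : ℕ) * (Real.log (t j) : ℂ)) ^ k * ((Real.exp (-∑ j, t j) : ℝ) : ℂ)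

/-- `(0, ∞)^k \ (0, x)^k` -/
def rest (k : ℕ) (x : ℝ) : Set (Fin k → ℝ) := {t | (∀ j, 0 < t j) ∧ ∃ j, x ≤ t j}

/-- `(0, ∞)^k` -/
def octant (k : ℕ) : Set (Fin k → ℝ) := {t | ∀ j, 0 < t j}

/-- `R_k(x)`, as a complex number -/
noncomputable def tailIntegral (k : ℕ) (x : ℚ) : ℂ :=
  (-1) ^ k / k.factorial * ∫ t in rest k x, integrand k t

/-- `R_k(x)`, as a real number -/
noncomputable def R (k : ℕ) (x : ℚ) : ℝ := (tailIntegral k x).re

/-- the `i`-th digit of `x` after the point in base `b` -/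
noncomputable def digit (b : ℕ) (x : ℝ) (i : ℕ) : ℤ := ⌊x * (b : ℝ) ^ i⌋ % (b : ℤ)

/-- the polynomial `s_1 X + s_2 X^2 + ⋯ + s_L X^L` -/
noncomputable def seqPoly (s : ℕ → ℤ) (L : ℕ) : ℚ[X] :=
  ∑ l ∈ Finset.Icc 1 L, Polynomial.C (s l : ℚ) * X ^ l

/-- `s` is a sequence of base `b` digits, and among the places `1, …, L` at most `K` are such that
`s_l` is not the `l`-th digit of `x` -/
def Near (b : ℕ) (x : ℝ) (K L : ℕ) (s : ℕ → ℤ) : Prop :=
  (∀ l, 0 ≤ s l ∧ s l < b) ∧ {l : ℕ | 1 ≤ l ∧ l ≤ L ∧ s l ≠ digit b x l}.ncard ≤ K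

/-- there is a nonzero polynomial `P(X, Y)` over `ℚ` of degree `≤ r` in `Y` and `≤ k` in `X` such
that `P(X, S(X))` is divisible by `X^(L+1)`, where `S` is the polynomial of the first `L` terms
of `s` -/
def AlgRelation (s : ℕ → ℤ) (r L k : ℕ) : Prop :=
  ∃ P : ℚ[X][X], P ≠ 0 ∧ P.natDegree ≤ r ∧ (∀ j, (P.coeff j).natDegree ≤ k) ∧
    X ^ (L + 1) ∣ P.eval (seqPoly s L)

/-- the `K`-error algebraic complexity of degree `r` of the first `L` digits of `x` in base `b`: the
least `k` such that after the change of at most `K` of the digits there is a relation with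
coefficients of degree at most `k` -/
noncomputable def complexity (b : ℕ) (x : ℝ) (r K L : ℕ) : ℕ :=
  sInf {k : ℕ | ∃ s, Near b x K L s ∧ AlgRelation s r L k}

/-- the joint transcendence measure -/
def JointMeasure {n : ℕ} (v : Fin n → ℝ) : Prop :=
  ∀ D : ℕ, ∃ (κ : ℕ) (c : ℝ), 0 < c ∧
    ∀ P : Fin n → ℤ[X], (∀ i, P i ≠ 0) → (∀ i, (P i).natDegree ≤ D) →
      ∀ H : ℝ, 1 ≤ H → (∀ i k, |(((P i).coeff k : ℤ) : ℝ)| ≤ H) →
        ∃ i, c / H ^ κ ≤ |aeval (v i) (P i)|

/-- the joint digit bound -/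
def DigitBound {n : ℕ} (v : Fin n → ℝ) : Prop :=
  ∀ r : ℕ, ∃ A : ℝ, 1 ≤ A ∧ ∀ b : Fin n → ℕ, (∀ i, 2 ≤ b i) → ∀ K L : Fin n → ℕ,
    ∃ i, L i * Real.log (b i) ≤
      A ^ (∑ j, K j + 1) * ∑ j, (complexity (b j) (v j) r (K j) (L j) + 1) * Real.log (b j)

/-- every nonempty subfamily `v_(σ(1)), …, v_(σ(m))` of `v_1, …, v_n` such that all other `v_i` are
algebraic has both properties -/
def Good {n : ℕ} (v : Fin n → ℝ) : Prop :=
  ∀ (m : ℕ) (σ : Fin m → Fin n), 0 < m → Function.Injective σ →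
    (∀ i, i ∉ range σ → IsAlgebraic ℚ (v i)) →
      JointMeasure (fun i => v (σ i)) ∧ DigitBound (fun i => v (σ i))

/-- `x` is algebraic over the field generated by the set `T` of real numbers -/
def AlgebraicOver (T : Set ℝ) (x : ℝ) : Prop := IsAlgebraic (IntermediateField.adjoin ℚ T) x

/-- the numbers `y_1, …, y_r` and `R_k(x)`; their names are the elements of `Fin r ⊕ (ℕ × ℚ)` -/
noncomputable def value {r : ℕ} (y : Fin r → ℝ) : Fin r ⊕ (ℕ × ℚ) → ℝ
  | .inl i => y i
  | .inr (k, x) => R k x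

/-- the names which are used: those of `y_1, …, y_r` and of `R_k(x)`, `k ∈ K`, `x` positive -/
def names (r : ℕ) (K : Set ℕ) : Set (Fin r ⊕ (ℕ × ℚ)) :=
  {i | ∀ k x, i = .inr (k, x) → k ∈ K ∧ 0 < x}

/-- the numbers `π, ζ(3), ζ(5), …, ζ(2c+1)` -/
noncomputable def constants (c : ℕ) : Fin (c + 1) → ℝ :=
  Fin.cons Real.pi fun i : Fin c => zeta (2 * i + 3)

theorem rest_eq (k : ℕ) (x : ℝ) :
    rest k x = Pool.Agent.R352.Q.cube k (Ioi 0) \ Pool.Agent.R352.Q.cube k (Ioo 0 x) := by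
  ext t
  simp only [rest, Pool.Agent.R352.Q.cube, mem_sdiff, mem_univ_pi, Set.mem_Ioi, Set.mem_Ioo]
  constructor
  · rintro ⟨h1, j, h2⟩
    exact ⟨h1, fun h => absurd (h j).2 (not_lt.2 h2)⟩
  · rintro ⟨h1, h2⟩
    push Not at h2
    obtain ⟨j, hj⟩ := h2
    exact ⟨h1, j, hj (h1 j)⟩

theorem octant_eq {k : ℕ} (hk : 2 ≤ k) :
    (-1) ^ k / (k.factorial : ℂ) * ∫ t in octant k, integrand k t = (zeta k : ℂ) := by
  have h : octant k = Pool.Agent.R352.Q.cube k (Ioi 0) := by
    ext t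
    simp [octant, Pool.Agent.R352.Q.cube]
  have h2 := Pool.Agent.R352.Q.NI_full hk
  rw [h]
  exact h2

theorem tailIntegral_eq {k : ℕ} (hk : 2 ≤ k) {x : ℚ} (hx : 0 < x) :
    tailIntegral k x = (Pool.Agent.R352.Q.Rk k x : ℂ) := by
  have hx' : (0 : ℝ) < x := by exact_mod_cast hx
  have h : tailIntegral k x = Pool.Agent.R352.Q.NI k
      (Pool.Agent.R352.Q.cube k (Ioi 0) \ Pool.Agent.R352.Q.cube k (Ioo 0 x)) := by
    rw [tailIntegral, rest_eq]
    rfl
  rw [h, Pool.Agent.R352.Q.NI_diff, Pool.Agent.R352.Q.NI_full hk, Pool.Agent.R352.Q.NI_box hk hx',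
    Pool.Agent.R352.Q.Rk]
  push_cast
  rfl

theorem R_eq {k : ℕ} (hk : 2 ≤ k) {x : ℚ} (hx : 0 < x) : R k x = Pool.Agent.R352.Q.Rk k x := by
  rw [R, tailIntegral_eq hk hx, Complex.ofReal_re]

theorem three {x : ℚ} (hx : 0 < x) :
    R 3 x = 1 / 12 * ∫ t in rest 3 x,
      Real.log (t 0 * t 1 / t 2 ^ 2) ^ 3 * Real.exp (-(t 0 + t 1 + t 2)) := by
  have hx' : (0 : ℝ) < x := by exact_mod_cast hx
  rw [rest_eq, Pool.Agent.R352.Q.three_rest hx', R_eq (by norm_num) hx]
  ring

theorem both_of_joint {n : ℕ} (hn : 0 < n) (v : Fin n → ℝ) (h : Pool.Agent.H895.SM.JointN v) :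
    JointMeasure v ∧ DigitBound v := by
  have : Nonempty (Fin n) := ⟨⟨0, hn⟩⟩
  refine ⟨fun D => ?_, fun r => ?_⟩
  · obtain ⟨κ, c, hc, hj⟩ := h D
    refine ⟨κ, c, hc, fun P hP hD H hH hPH => ?_⟩
    obtain ⟨i, -, hi⟩ := Finset.exists_max_image Finset.univ (fun i => |aeval (v i) (P i)|)
      Finset.univ_nonempty
    refine ⟨i, ?_⟩
    rw [div_le_iff₀ (by positivity), mul_comm]
    exact hj P hP hD H hH hPH _ fun j => hi j (Finset.mem_univ _)
  · obtain ⟨A, hA, hj⟩ := Pool.Agent.H895.SM.complexity_N hn v h r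
    refine ⟨A, hA, fun b hb K L => ?_⟩
    obtain ⟨i, -, hi⟩ := Finset.exists_min_image Finset.univ (fun i => L i * Real.log (b i))
      Finset.univ_nonempty
    exact ⟨i, hj b hb K L _ fun j => hi j (Finset.mem_univ _)⟩

theorem good_of_joint {n : ℕ} (v : Fin n → ℝ) (h : Pool.Agent.H895.SM.JointN v) : Good v :=
  fun _ σ hm hσ ha => both_of_joint hm _ (h.omit hm σ hσ ha)

theorem general (r n : ℕ) (y : Fin r → ℝ) (K : Set ℕ)
    (hK : ∀ k ∈ K, 2 ≤ k ∧ AlgebraicOver ({Real.exp 1} ∪ range y) (zeta k))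
    (N : Fin n → Fin r ⊕ (ℕ × ℚ)) (hN : Function.Injective N) (hNK : ∀ i, N i ∈ names r K)
    (hn : r < n) (v : Fin n → ℝ) (hv : ∀ i, AlgebraicOver {Real.exp 1, v i} (value y (N i))) :
    Good v := by
  refine good_of_joint v (Pool.Agent.H895.SM.joint_countR y N hN ?_ hn v ?_)
  · intro i p hp
    obtain ⟨h1, h2⟩ := hNK i p.1 p.2 hp
    exact ⟨(hK _ h1).1, h2, Pool.Agent.R352.E.mem_clF.2 (hK _ h1).2⟩
  · intro i
    have h1 := Pool.Agent.R352.E.mem_clF.2 (hv i)
    rcases h : N i with j | p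
    · rw [h] at h1
      exact h1
    · obtain ⟨h2, h3⟩ := hNK i p.1 p.2 h
      rw [h] at h1
      have h4 : value y (Sum.inr p) = Pool.Agent.R352.Q.Rk p.1 p.2 := R_eq (hK _ h2).1 h3
      rw [h4] at h1
      exact h1

theorem self_algebraic (x : ℝ) : AlgebraicOver {Real.exp 1, x} x :=
  Pool.Agent.R352.E.mem_clF.1 (Pool.Agent.R352.E.subset_clF _ (Or.inr rfl))

theorem constants_mem {c k : ℕ} (hk : 2 ≤ k) (h : Even k ∨ k ≤ 2 * c + 1) :
    AlgebraicOver ({Real.exp 1} ∪ range (constants c)) (zeta k) := by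
  refine Pool.Agent.R352.E.mem_clF.1 ?_
  have hpi : Real.pi ∈ Pool.Agent.R352.E.clF ({Real.exp 1} ∪ range (constants c)) :=
    Pool.Agent.R352.E.subset_clF _ (Or.inr ⟨0, rfl⟩)
  rcases Nat.even_or_odd' k with ⟨j, rfl | rfl⟩
  · exact Pool.Agent.R352.E.zt_even hpi j (by omega)
  · have h1 : 2 * j + 1 ≤ 2 * c + 1 := by
      rcases h with h | h
      · exact absurd h (by simp)
      · exact h
    refine Pool.Agent.R352.E.subset_clF _ (Or.inr ⟨Fin.succ ⟨j - 1, by omega⟩, ?_⟩)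
    simp only [constants, Fin.cons_succ]
    congr 1
    omega

theorem zeta3_mem : ∀ k ∈ ({3} : Set ℕ),
    2 ≤ k ∧ AlgebraicOver ({Real.exp 1} ∪ range (fun _ : Fin 1 => zeta 3)) (zeta k) := by
  rintro k rfl
  exact ⟨by norm_num, Pool.Agent.R352.E.mem_clF.1
    (Pool.Agent.R352.E.subset_clF _ (Or.inr ⟨0, rfl⟩))⟩

theorem result :
    -- (1)
    ((∀ k : ℕ, 2 ≤ k →
        (-1) ^ k / (k.factorial : ℂ) * ∫ t in octant k, integrand k t = (zeta k : ℂ) ∧
        ∀ x : ℚ, 0 < x → tailIntegral k x = (R k x : ℂ)) ∧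
      ∀ x : ℚ, 0 < x → R 3 x = 1 / 12 * ∫ t in rest 3 x,
        Real.log (t 0 * t 1 / t 2 ^ 2) ^ 3 * Real.exp (-(t 0 + t 1 + t 2))) ∧
    -- (2)
    (∀ x : ℚ, 0 < x → Good ![zeta 3, R 3 x] ∧
      ∀ x' : ℚ, 0 < x' → x ≠ x' → Good ![R 3 x, R 3 x']) ∧
    -- (3)
    (∀ (r n : ℕ) (y : Fin r → ℝ) (K : Set ℕ),
      (∀ k ∈ K, 2 ≤ k ∧ AlgebraicOver ({Real.exp 1} ∪ range y) (zeta k)) →
      ∀ N : Fin n → Fin r ⊕ (ℕ × ℚ), Function.Injective N → (∀ i, N i ∈ names r K) → r < n →
        ∀ v : Fin n → ℝ, (∀ i, AlgebraicOver {Real.exp 1, v i} (value y (N i))) → Good v) ∧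
    -- (4)
    (∀ c : ℕ, ∀ N : Fin (c + 2) → Fin (c + 1) ⊕ (ℕ × ℚ), Function.Injective N →
      (∀ i, N i ∈ names (c + 1) {k | 2 ≤ k ∧ (Even k ∨ k ≤ 2 * c + 1)}) →
        Good (fun i => value (constants c) (N i))) := by
  refine ⟨⟨fun k hk => ⟨octant_eq hk, fun x hx => ?_⟩, fun x hx => three hx⟩, fun x hx => ⟨?_, fun x' hx' hxx => ?_⟩,
    general, fun c N hN hNK => ?_⟩
  · rw [R_eq hk hx, tailIntegral_eq hk hx]
  · refine general 1 2 (fun _ => zeta 3) {3} zeta3_mem ![.inl 0, .inr (3, x)] ?_ ?_ (by norm_num)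
      _ ?_
    · intro i j h
      fin_cases i <;> fin_cases j <;> simp_all
    · intro i k x' h
      fin_cases i <;> simp_all
    · intro i
      fin_cases i
      · exact self_algebraic _
      · exact self_algebraic _
  · refine general 1 2 (fun _ => zeta 3) {3} zeta3_mem ![.inr (3, x), .inr (3, x')] ?_ ?_
      (by norm_num) _ ?_
    · intro i j h
      fin_cases i <;> fin_cases j <;> simp_all
    · intro i k x'' h
      fin_cases i <;> simp_all
    · intro i
      fin_cases i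
      · exact self_algebraic _
      · exact self_algebraic _
  · exact general (c + 1) (c + 2) (constants c) _
      (fun k hk => ⟨hk.1, constants_mem hk.1 hk.2⟩) N hN hNK (Nat.lt_succ_self _) _
      (fun i => self_algebraic _)

end Pool.Agent.Results.MP_48b3e2_nt.JointMeasuresTails
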